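import Mathlib
import Pool.Agent.W528.ZC.Stm

/-!
Idempotent matrices and one-parameter multiplicative groups.
-/

set_option autoImplicit false
set_option maxHeartbeats 400000
set_option linter.unusedSectionVars false

namespace Pool.Agent.W978.ZC.ID

open Module MvPolynomial Pool.Agent.W528.ZC

variable {K : Type} [Field K] {ι : Type} [Fintype ι] [DecidableEq ι]

/-- entries of `X b` -/
noncomputable def lin (b : Matrix ι ι K) (q : ι × ι) : MvPolynomial (ι × ι) K :=
  ∑ j, C (b j q.2) * X (q.1, j)

lemma lin_lin (a b : Matrix ι ι K) (q : ι × ι) :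
    ∑ j, C (b j q.2) * lin a (q.1, j) = lin (a * b) q := by
  unfold lin
  simp only [Matrix.mul_apply, map_sum, Finset.sum_mul, Finset.mul_sum]
  rw [Finset.sum_comm]
  refine Finset.sum_congr rfl fun i _ => Finset.sum_congr rfl fun j _ => ?_
  rw [C_mul]; ring

lemma lin_one (q : ι × ι) : lin (1 : Matrix ι ι K) q = X q := by
  unfold lin
  rw [Finset.sum_eq_single q.2]
  · simp
  · intro j _ hj
    rw [Matrix.one_apply_ne hj]; simp
  · intro h; exact absurd (Finset.mem_univ _) h

lemma lin_zero (q : ι × ι) : lin (0 : Matrix ι ι K) q = 0 := by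
  simp [lin]

lemma lin_add (a b : Matrix ι ι K) (q : ι × ι) : lin (a + b) q = lin a q + lin b q := by
  simp [lin, add_mul, Finset.sum_add_distrib]

lemma lin_smul (c : K) (b : Matrix ι ι K) (q : ι × ι) : lin (c • b) q = C c * lin b q := by
  simp [lin, Finset.mul_sum, mul_assoc]

/-- the algebra map `X ↦ X (1 - p) + T X p` -/
noncomputable def Ph (p : Matrix ι ι K) :
    MvPolynomial (ι × ι) K →ₐ[K] Polynomial (MvPolynomial (ι × ι) K) :=
  aeval fun q => Polynomial.C (lin (1 - p) q) + Polynomial.X * Polynomial.C (lin p q)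

lemma Ph_X (p : Matrix ι ι K) (q : ι × ι) :
    Ph p (X q) = Polynomial.C (lin (1 - p) q) + Polynomial.X * Polynomial.C (lin p q) := by
  simp [Ph]

lemma Ph_C (p : Matrix ι ι K) (a : K) : Ph p (C a) = Polynomial.C (C a) := by
  have h := (Ph p).commutes a
  rw [MvPolynomial.algebraMap_eq] at h
  rw [h]; rfl

lemma Ph_lin (p b : Matrix ι ι K) (q : ι × ι) :
    Ph p (lin b q) =
      Polynomial.C (lin ((1 - p) * b) q) + Polynomial.X * Polynomial.C (lin (p * b) q) := by
  rw [← lin_lin, ← lin_lin]
  have e : lin b q = ∑ j, C (b j q.2) * X (q.1, j) := rfl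
  rw [e, map_sum, map_sum, map_sum, Finset.mul_sum, ← Finset.sum_add_distrib]
  refine Finset.sum_congr rfl fun j _ => ?_
  rw [map_mul, Ph_C, Ph_X, Polynomial.C_mul, Polynomial.C_mul]
  ring

lemma D_X (y : Matrix ι ι K) (q : ι × ι) : D y (X q) = lin y q := by
  unfold D
  rw [mkDerivation_X]
  rfl

lemma T_der (p : Matrix ι ι K) (hp : p * p = p) (f : MvPolynomial (ι × ι) K) :
    Polynomial.X * Polynomial.derivative (Ph p f) = Ph p (D p f) := by
  induction f using MvPolynomial.induction_on with
  | C a =>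
    rw [Ph_C, Polynomial.derivative_C, mul_zero]
    have h := (D p).map_algebraMap a
    rw [MvPolynomial.algebraMap_eq] at h
    rw [h, map_zero]
  | add f g hf hg =>
    rw [map_add, Polynomial.derivative_add, mul_add, hf, hg, map_add, map_add]
  | mul_X f q hf =>
    have h1 : Ph p (lin p q) = Polynomial.X * Polynomial.C (lin p q) := by
      rw [Ph_lin, hp, sub_mul, one_mul, hp, sub_self, lin_zero, Polynomial.C_0, zero_add]
    have h2 : Polynomial.derivative (Ph p (X q)) = Polynomial.C (lin p q) := by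
      rw [Ph_X, Polynomial.derivative_add, Polynomial.derivative_C, zero_add,
        Polynomial.derivative_mul, Polynomial.derivative_C, Polynomial.derivative_X]
      ring
    rw [map_mul, Polynomial.derivative_mul, Derivation.leibniz, D_X, map_add, smul_eq_mul,
      smul_eq_mul, map_mul, map_mul, h1, h2, ← hf]
    ring

lemma sub_X (b : Matrix ι ι K) (q : ι × ι) :
    sub 1 b (X q) = lin b q := by
  unfold sub lin
  rw [aeval_X]
  have h : ∀ i ∈ (Finset.univ : Finset ι), i ≠ q.1 →
      (∑ j, C ((1 : Matrix ι ι K) q.1 i * b j q.2) * X (i, j) : MvPolynomial (ι × ι) K) = 0 := by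
    intro i _ hi
    refine Finset.sum_eq_zero fun j _ => ?_
    rw [Matrix.one_apply_ne (Ne.symm hi)]; simp
  rw [Finset.sum_eq_single q.1 h (fun h => absurd (Finset.mem_univ _) h)]
  refine Finset.sum_congr rfl fun j _ => ?_
  simp

lemma eval_Ph (p : Matrix ι ι K) (c : K) (f : MvPolynomial (ι × ι) K) :
    Polynomial.eval (C c) (Ph p f) = sub 1 (1 - p + c • p) f := by
  induction f using MvPolynomial.induction_on with
  | C a =>
    have h := (sub 1 (1 - p + c • p)).commutes a
    rw [MvPolynomial.algebraMap_eq] at h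
    rw [Ph_C, Polynomial.eval_C, h]
  | add f g hf hg =>
    rw [map_add, Polynomial.eval_add, hf, hg, map_add]
  | mul_X f q hf =>
    rw [map_mul, Polynomial.eval_mul, hf, map_mul]
    congr 1
    rw [Ph_X, Polynomial.eval_add, Polynomial.eval_mul, Polynomial.eval_C, Polynomial.eval_X,
      Polynomial.eval_C, ← lin_smul, ← lin_add, sub_X]

lemma coeff_mem (S : Submodule K (MvPolynomial (ι × ι) K))
    (g : Polynomial (MvPolynomial (ι × ι) K))
    (h : {c : K | Polynomial.eval (C c) g ∈ S}.Infinite) (k : ℕ) : g.coeff k ∈ S := by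
  by_contra hk
  obtain ⟨φ, hφ, hS⟩ := Submodule.exists_le_ker_of_notMem hk
  set P : Polynomial K := ∑ n ∈ Finset.range (g.natDegree + 1),
    Polynomial.monomial n (φ (g.coeff n)) with hP
  have hev : ∀ c : K, Polynomial.eval c P = φ (Polynomial.eval (C c) g) := by
    intro c
    rw [Polynomial.eval_eq_sum_range (p := g), hP, Polynomial.eval_finsetSum, map_sum]
    refine Finset.sum_congr rfl fun n _ => ?_
    rw [Polynomial.eval_monomial, ← C_pow, mul_comm (g.coeff n), ← MvPolynomial.smul_eq_C_mul,
      map_smul, smul_eq_mul, mul_comm]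
  have hinf : {c : K | Polynomial.IsRoot P c}.Infinite := by
    refine h.mono fun c hc => ?_
    show Polynomial.eval c P = 0
    rw [hev]
    exact LinearMap.mem_ker.1 (hS hc)
  have hP0 := Polynomial.eq_zero_of_infinite_isRoot P hinf
  have hc : P.coeff k = φ (g.coeff k) := by
    rw [hP, Polynomial.finsetSum_coeff]
    simp only [Polynomial.coeff_monomial]
    by_cases hkd : k ∈ Finset.range (g.natDegree + 1)
    · rw [Finset.sum_ite_eq' _ _, if_pos hkd]
    · rw [Finset.sum_ite_eq' _ _, if_neg hkd]
      rw [Finset.mem_range, not_lt] at hkd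
      rw [Polynomial.coeff_eq_zero_of_natDegree_lt (by omega), map_zero]
  rw [hP0, Polynomial.coeff_zero] at hc
  exact hφ hc.symm

theorem main : Pool.Agent.W528.ZC.ID := by
  intro K _ _ ι _ _ p hp S f hf
  have h1 : D p f = Polynomial.eval 1 (Ph p (D p f)) := by
    have h := eval_Ph p 1 (D p f)
    rw [C_1, one_smul, sub_add_cancel] at h
    rw [h]
    have e : sub (1 : Matrix ι ι K) 1 = AlgHom.id K _ := by
      apply MvPolynomial.algHom_ext
      intro q
      rw [sub_X, AlgHom.id_apply, lin_one]
    rw [e]; rfl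
  rw [h1, ← T_der p hp, Polynomial.eval_mul, Polynomial.eval_X, one_mul,
    Polynomial.derivative_eval, Polynomial.sum_def]
  refine Submodule.sum_mem _ fun n _ => ?_
  rw [one_pow, mul_one, mul_comm, ← nsmul_eq_mul]
  refine S.toAddSubmonoid.nsmul_mem ?_ n
  refine coeff_mem S _ ?_ n
  refine hf.mono fun c hc => ?_
  show Polynomial.eval (C c) (Ph p f) ∈ S
  rw [eval_Ph]
  exact hc

end Pool.Agent.W978.ZC.ID
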